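import Pool.Agent.Helper82_RS.Jac2

/-!
# Squad RS (`MP_b2b50d_lc`): families of polynomials of bounded transcendence degree and
homomorphisms which are injective on the algebra which they generate
-/

set_option autoImplicit false

namespace Pool.Agent.RS.H82

open MvPolynomial

section faithful

variable {E A B J : Type} [Field E] [CommRing A] [IsDomain A] [Algebra E A] [CommRing B]
  [Algebra E B]

/-- A homomorphism which is injective on a subalgebra does not kill the nonzero elements which are
algebraic over it. -/
theorem map_ne_zero_of_algebraic (φ : A →ₐ[E] B) (S : Subalgebra E A)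
    (hinj : ∀ a ∈ S, φ a = 0 → a = 0) (a : A) (ha : IsAlgebraic S a) (ha0 : a ≠ 0) :
    φ a ≠ 0 := by
  intro hφ
  obtain ⟨q, hq0, hq⟩ := ha.exists_nonzero_coeff_and_aeval_eq_zero
    (mem_nonZeroDivisors_of_ne_zero ha0)
  have h1 : Polynomial.aeval a q = a * Polynomial.aeval a (Polynomial.divX q) +
      algebraMap S A (q.coeff 0) := by
    conv_lhs => rw [← Polynomial.divX_mul_X_add q]
    rw [map_add, map_mul, Polynomial.aeval_X, Polynomial.aeval_C, mul_comm]
  rw [hq] at h1
  have h2 := congrArg φ h1
  rw [map_zero, map_add, map_mul, hφ, zero_mul, zero_add] at h2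
  exact hq0 (Subtype.ext (hinj _ (q.coeff 0).2 h2.symm))

/-- A maximal algebraically independent subfamily. -/
theorem exists_maximal (T : J → A) (k : ℕ)
    (hk : ∀ s : Fin (k + 1) → J, ¬ AlgebraicIndependent E (fun l => T (s l))) :
    ∃ (r : ℕ) (s : Fin r → J), r ≤ k ∧ AlgebraicIndependent E (fun l => T (s l)) ∧
      ∀ F ∈ Algebra.adjoin E (Set.range T),
        IsAlgebraic (Algebra.adjoin E (Set.range fun l => T (s l))) F := by
  classical
  -- the maximal length
  let Q : ℕ → Prop := fun r => ∃ s : Fin r → J, AlgebraicIndependent E (fun l => T (s l))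
  have hQ0 : Q 0 := by
    refine ⟨Fin.elim0, ?_⟩
    rw [algebraicIndependent_empty_type_iff]
    exact (algebraMap E A).injective
  have hQk : ∀ r, Q r → r ≤ k := by
    rintro r ⟨s, hs⟩
    by_contra hcon
    push Not at hcon
    refine hk (fun l => s (Fin.castLE hcon l)) ?_
    exact hs.comp _ (Fin.castLE_injective hcon)
  obtain ⟨r, ⟨s, hs⟩, hmax⟩ : ∃ r, Q r ∧ ∀ r', Q r' → r' ≤ r := by
    refine ⟨Nat.findGreatest Q k, Nat.findGreatest_spec (Nat.zero_le k) hQ0, fun r' hr' => ?_⟩
    exact Nat.le_findGreatest (hQk r' hr') hr'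
  refine ⟨r, s, hQk r ⟨s, hs⟩, hs, ?_⟩
  have h1 : ∀ j, IsAlgebraic (Algebra.adjoin E (Set.range fun l => T (s l))) (T j) := by
    intro j
    by_contra htr
    have h2 := (hs.option_iff_transcendental (T j)).2 htr
    have h3 : Q (r + 1) := by
      refine ⟨fun l => (finSuccEquiv r l).elim j s, ?_⟩
      have h4 := h2.comp (finSuccEquiv r) (finSuccEquiv r).injective
      have h5 : ((fun o : Option (Fin r) => o.elim (T j) fun l => T (s l)) ∘ (finSuccEquiv r)) =
          fun l => T ((finSuccEquiv r l).elim j s) := by
        funext l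
        rcases h : finSuccEquiv r l with _ | l'
        · simp [h]
        · simp [h]
      rw [h5] at h4
      exact h4
    have := hmax _ h3
    omega
  intro F hF
  induction hF using Algebra.adjoin_induction with
  | mem x hx =>
    obtain ⟨j, rfl⟩ := hx
    exact h1 j
  | algebraMap c =>
    rw [IsScalarTower.algebraMap_apply E (Algebra.adjoin E (Set.range fun l => T (s l))) A]
    exact isAlgebraic_algebraMap _
  | add x y _ _ hx hy => exact hx.add hy
  | mul x y _ _ hx hy => exact hx.mul hy

/-- The main property of an algebraically independent subfamily over which everything is algebraic: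
a homomorphism is injective on the algebra generated by `T` as soon as it maps the subfamily to
an algebraically independent family. -/
theorem faithful {r : ℕ} (T : J → A) (s : Fin r → J)
    (hs : AlgebraicIndependent E (fun l => T (s l)))
    (halg : ∀ F ∈ Algebra.adjoin E (Set.range T),
        IsAlgebraic (Algebra.adjoin E (Set.range fun l => T (s l))) F)
    (φ : A →ₐ[E] B) (hφ : AlgebraicIndependent E (fun l => φ (T (s l)))) (F : A)
    (hF : F ∈ Algebra.adjoin E (Set.range T)) (hF0 : F ≠ 0) : φ F ≠ 0 := by
  refine map_ne_zero_of_algebraic φ _ ?_ F (halg F hF) hF0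
  intro a ha h0
  rw [Algebra.adjoin_range_eq_range_aeval] at ha
  obtain ⟨P, rfl⟩ := ha
  have h1 : aeval (fun l => φ (T (s l))) P = 0 := by
    rw [← h0]
    exact (MvPolynomial.comp_aeval_apply (fun l => T (s l)) φ P).symm
  have h2 := (algebraicIndependent_iff.1 hφ) P h1
  rw [h2]
  exact map_zero _

end faithful

end Pool.Agent.RS.H82
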