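import Pool.Agent.RS.StmtsG
import Pool.Agent.Helper82_RS.Faith

/-!
# Squad RS, row FAI: the Jacobian criterion and faithfulness
-/

set_option autoImplicit false

namespace Pool.Agent.RS.H82

open MvPolynomial

theorem fai : FaiStmt := by
  intro E _ _ m k T hk
  classical
  obtain ⟨ρ, s, hρ, hs, halg⟩ := exists_maximal (E := E) T k (by
    intro s hs
    have hinj : Function.Injective s := by
      intro a b hab
      exact hs.injective (by simp only [hab])
    let u : Finset (Fin m) := Finset.univ.map ⟨s, hinj⟩
    have hu : AlgebraicIndependent E (fun i : u => T i) := by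
      have hmem : ∀ i : u, ∃ a, s a = i := by
        rintro ⟨i, hi⟩
        obtain ⟨a, -, ha⟩ := Finset.mem_map.1 hi
        exact ⟨a, ha⟩
      choose g hg using hmem
      have hginj : Function.Injective g := by
        intro a b hab
        apply Subtype.ext
        rw [← hg a, ← hg b, hab]
      have h1 := hs.comp g hginj
      have h2 : (fun l => T (s l)) ∘ g = fun i : u => T i := by
        funext i
        simp only [Function.comp, hg]
      rw [h2] at h1
      exact h1
    have h3 := hk u hu
    rw [Finset.card_map, Finset.card_univ, Fintype.card_fin] at h3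
    omega)
  obtain ⟨j, hj⟩ := exists_jacobian_minor _ hs
  have htr : ∀ (S : Fin ρ → MvPolynomial ℕ E), (Matrix.of fun i l => pderiv (j i) (S l)).det =
      (Matrix.of fun l i => pderiv (j i) (S l)).det := by
    intro S
    rw [← Matrix.det_transpose]
    rfl
  refine ⟨ρ, s, j, hρ, ?_, ?_⟩
  · rw [htr]
    exact hj
  · intro Ph C hPh hC
    rw [htr] at hPh
    refine faithful T s hs halg Ph (algebraicIndependent_of_minor _ j hPh) _ ?_ hC
    rw [Algebra.adjoin_range_eq_range_aeval]
    exact ⟨C, rfl⟩

end Pool.Agent.RS.H82
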