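import Mathlib

/-!
# Squad RS (`MP_b2b50d_lc`): linearly independent rows have a nonzero maximal minor
-/

set_option autoImplicit false

namespace Pool.Agent.RS.H82

/-- Linearly independent rows `v 0, ..., v (r - 1)` have a nonzero maximal minor. -/
theorem exists_minor {K I : Type} [Field K] {r : ℕ} (v : Fin r → I → K)
    (h : LinearIndependent K v) :
    ∃ j : Fin r → I, (Matrix.of fun l i => v l (j i)).det ≠ 0 := by
  classical
  let w : I → Fin r → K := fun i l => v l i
  have hspan : Submodule.span K (Set.range w) = ⊤ := by
    by_contra hne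
    obtain ⟨f, hf, hle⟩ := Submodule.exists_le_ker_of_lt_top _ (lt_top_iff_ne_top.2 hne)
    apply hf
    have hf2 : ∀ x : Fin r → K, f x = ∑ l, x l * f (Pi.single l 1) := by
      intro x
      conv_lhs => rw [pi_eq_sum_univ' x]
      rw [map_sum]
      refine Finset.sum_congr rfl fun l _ => ?_
      rw [map_smul, smul_eq_mul]
    have h1 : ∀ i, ∑ l, f (Pi.single l 1) * v l i = 0 := by
      intro i
      have h2 : f (w i) = 0 := hle (Submodule.subset_span ⟨i, rfl⟩)
      rw [hf2] at h2
      rw [← h2]
      exact Finset.sum_congr rfl fun l _ => mul_comm _ _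
    have h3 := Fintype.linearIndependent_iff.1 h (fun l => f (Pi.single l 1)) (by
      funext i
      rw [Finset.sum_apply]
      simpa using h1 i)
    ext l
    simpa using h3 l
  obtain ⟨b, hb1, hb2, hb3⟩ := exists_linearIndependent K (Set.range w)
  rw [hspan] at hb2
  let B : Module.Basis b K (Fin r → K) := Module.Basis.mk hb3 (by simp [hb2])
  have hfin : Finite b := Module.Finite.finite_basis B
  have : Fintype b := Fintype.ofFinite b
  have hcard : Fintype.card b = r := by
    rw [← Module.finrank_eq_card_basis B, Module.finrank_fin_fun]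
  let e : Fin r ≃ b := (Fintype.equivFinOfCardEq hcard).symm
  choose g hg using fun x : b => hb1 x.2
  refine ⟨fun i => g (e i), ?_⟩
  have h4 : LinearIndependent K (fun i : Fin r => ((e i : b) : Fin r → K)) :=
    hb3.comp e e.injective
  have h5 : (Matrix.of fun l i => v l (g (e i))).transpose =
      Matrix.of fun i : Fin r => ((e i : b) : Fin r → K) := by
    ext i l
    have h6 := congrFun (hg (e i)) l
    simpa [w] using h6
  rw [← Matrix.det_transpose, h5]
  have h7 := Matrix.linearIndependent_rows_iff_isUnit.1
    (show LinearIndependent K (Matrix.of fun i : Fin r => ((e i : b) : Fin r → K)).row from h4)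
  exact ((Matrix.isUnit_iff_isUnit_det _).1 h7).ne_zero

/-- The same over a domain. -/
theorem exists_minor' {A I : Type} [CommRing A] [IsDomain A] {r : ℕ} (v : Fin r → I → A)
    (h : ∀ c : Fin r → A, (∀ i, ∑ l, c l * v l i = 0) → c = 0) :
    ∃ j : Fin r → I, (Matrix.of fun l i => v l (j i)).det ≠ 0 := by
  classical
  let K := FractionRing A
  obtain ⟨j, hj⟩ := exists_minor (K := K) (fun l i => algebraMap A K (v l i)) (by
    rw [Fintype.linearIndependent_iff]
    intro c hc
    obtain ⟨b, hb⟩ := IsLocalization.exist_integer_multiples_of_finset (nonZeroDivisors A)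
      (Finset.univ.image c)
    have hb' : ∀ l, ∃ a : A, algebraMap A K a = (b : A) • c l := fun l =>
      hb (c l) (Finset.mem_image_of_mem _ (Finset.mem_univ l))
    choose a ha using hb'
    have h1 : a = 0 := by
      apply h
      intro i
      apply IsFractionRing.injective A K
      have h2 := congrFun hc i
      rw [Finset.sum_apply] at h2
      rw [map_sum, map_zero]
      calc ∑ l, algebraMap A K (a l * v l i) = ∑ l, (b : A) • (c l * algebraMap A K (v l i)) := by
            refine Finset.sum_congr rfl fun l _ => ?_
            rw [map_mul, ha, smul_mul_assoc]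
        _ = (b : A) • ∑ l, c l * algebraMap A K (v l i) := (Finset.smul_sum).symm
        _ = 0 := by
            have h3 : ∑ l, c l * algebraMap A K (v l i) = 0 := by simpa using h2
            rw [h3, smul_zero]
    intro l
    have h4 := ha l
    rw [h1, Pi.zero_apply, map_zero, Algebra.smul_def] at h4
    rcases mul_eq_zero.1 h4.symm with h5 | h5
    · exact absurd ((map_eq_zero_iff _ (IsFractionRing.injective A K)).1 h5)
        (nonZeroDivisors.ne_zero b.2)
    · exact h5)
  refine ⟨j, fun h0 => hj ?_⟩
  have h6 : (Matrix.of fun l i => algebraMap A K (v l (j i))) =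
      (algebraMap A K).mapMatrix (Matrix.of fun l i => v l (j i)) := by
    ext l i
    rfl
  rw [h6, ← RingHom.map_det, h0, map_zero]

end Pool.Agent.RS.H82
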