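import Pool.Agent.RS.StmtsF

/-!
# Squad RS, row PHB: basic facts on `Phi`
-/

set_option autoImplicit false

namespace Pool.Agent.RS.H82

open MvPolynomial

theorem phb : PhbStmt := by
  intro E _ J ζ f
  classical
  refine ⟨?_, ?_, ?_, ?_⟩
  · unfold Phi
    rw [← MvPolynomial.coe_aeval_eq_eval]
    change ((aeval ζ).comp (aeval fun i => if i ∈ J then X i else C (ζ i)) :
      MvPolynomial ℕ E →ₐ[E] E) f = aeval ζ f
    congr 1
    apply MvPolynomial.algHom_ext
    intro i
    by_cases hi : i ∈ J <;> simp [hi]
  · intro j hj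
    have h1 : ((Polynomial.mapAlgHom (Phi J ζ)).comp (toX j) :
        MvPolynomial ℕ E →ₐ[E] Polynomial (MvPolynomial ℕ E)) = (toX j).comp (Phi J ζ) := by
      apply MvPolynomial.algHom_ext
      intro i
      by_cases hij : i = j
      · subst hij
        simp [Phi, toX, hj]
      · by_cases hi : i ∈ J
        · simp [Phi, toX, hi, hij]
        · simp [Phi, toX, hi, hij, MvPolynomial.algebraMap_eq]
    exact congrArg (fun g : MvPolynomial ℕ E →ₐ[E] Polynomial (MvPolynomial ℕ E) => g f) h1
  · intro J' hJ
    have h1 : ((Phi J ζ).comp (Phi J' ζ) : MvPolynomial ℕ E →ₐ[E] MvPolynomial ℕ E) =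
        Phi J ζ := by
      apply MvPolynomial.algHom_ext
      intro i
      by_cases hi : i ∈ J'
      · simp [Phi, hi]
      · have hi2 : i ∉ J := fun h => hi (hJ h)
        simp [Phi, hi, hi2, MvPolynomial.algebraMap_eq]
    exact congrArg (fun g : MvPolynomial ℕ E →ₐ[E] MvPolynomial ℕ E => g f) h1
  · intro j hj
    induction f using MvPolynomial.induction_on with
    | C a => simp [Phi, MvPolynomial.algebraMap_eq]
    | add p q hp hq => rw [map_add, map_add, map_add, map_add, hp, hq]
    | mul_X p i hp =>
      rw [map_mul, Derivation.leibniz, Derivation.leibniz, map_add, hp, smul_eq_mul, smul_eq_mul,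
        smul_eq_mul, smul_eq_mul, map_mul, map_mul]
      congr 1
      by_cases hi : i ∈ J
      · by_cases hij : i = j
        · subst hij
          simp [Phi, hi]
        · simp [Phi, hi, pderiv_X_of_ne hij]
      · have hij : i ≠ j := fun h => hi (h ▸ hj)
        simp [Phi, hi, pderiv_X_of_ne hij]

end Pool.Agent.RS.H82
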