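import Pool.Agent.RS.StmtsG
import Pool.Agent.Helper82_RS.PHB
import Pool.Agent.Helper47_RS.NMT

/-!
# Sums of fractions in few variables (`MP_b2b50d_lc`)

A sum of fractions each of which involves at most `c` variables is determined by its specialisations
which keep at most `c` variables (Moebius inversion).
-/

set_option autoImplicit false

namespace Pool.Agent.RS.H82

open MvPolynomial

/-- Moebius inversion: `w t J` does not depend on the elements of `J` outside of `V t`. -/
theorem moebius {ι K : Type} [Fintype ι] [Field K] (c : ℕ) (V : ι → Finset ℕ)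
    (hV : ∀ t, (V t).card ≤ c) (w : ι → Finset ℕ → K)
    (hw : ∀ t J u, u ∉ V t → w t (insert u J) = w t J)
    (h : ∀ J : Finset ℕ, J.card ≤ c → ∑ t, w t J = 0) : ∀ J : Finset ℕ, ∑ t, w t J = 0 := by
  intro J
  induction hn : J.card using Nat.strong_induction_on generalizing J with
  | _ n ih =>
    by_cases hc : J.card ≤ c
    · exact h J hc
    · have h1 : ∑ J' ∈ J.powerset, (-1 : K) ^ J'.card * ∑ t, w t J' = 0 := by
        simp_rw [Finset.mul_sum]
        rw [Finset.sum_comm]
        refine Finset.sum_eq_zero fun t _ => ?_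
        obtain ⟨u, huJ, huV⟩ : ∃ u ∈ J, u ∉ V t := by
          by_contra hcon
          push Not at hcon
          exact hc ((Finset.card_le_card hcon).trans (hV t))
        rw [← Finset.insert_erase huJ, Finset.sum_powerset_insert (Finset.notMem_erase u J),
          ← Finset.sum_add_distrib]
        refine Finset.sum_eq_zero fun J' hJ' => ?_
        have hu : u ∉ J' := fun hu => Finset.notMem_erase u J (Finset.mem_powerset.1 hJ' hu)
        rw [hw t J' u huV, Finset.card_insert_of_notMem hu, pow_succ]
        ring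
      have h2 : ∑ J' ∈ J.powerset, (-1 : K) ^ J'.card * ∑ t, w t J' =
          (-1 : K) ^ J.card * ∑ t, w t J := by
        refine Finset.sum_eq_single_of_mem J (Finset.mem_powerset_self J) fun J' hJ' hne => ?_
        have h3 : J'.card < n := by
          rw [← hn]
          exact Finset.card_lt_card ((Finset.mem_powerset.1 hJ').ssubset_of_ne hne)
        rw [ih J'.card h3 J' rfl, mul_zero]
      rw [h2] at h1
      exact (mul_eq_zero.1 h1).resolve_left (pow_ne_zero _ (neg_ne_zero.2 one_ne_zero))

theorem phi_insert {E : Type} [Field E] (J : Finset ℕ) (ζ : ℕ → E) (f : MvPolynomial ℕ E) (u : ℕ)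
    (hu : u ∉ f.vars) : Phi (insert u J) ζ f = Phi J ζ f := by
  unfold Phi
  refine MvPolynomial.eval₂Hom_congr' rfl ?_ rfl
  intro i hi _
  have hiu : i ≠ u := fun h => hu (h ▸ hi)
  simp [Finset.mem_insert, hiu]

theorem phi_of_vars {E : Type} [Field E] (J : Finset ℕ) (ζ : ℕ → E) (f : MvPolynomial ℕ E)
    (hf : f.vars ⊆ J) : Phi J ζ f = f := by
  unfold Phi
  conv_rhs => rw [← MvPolynomial.aeval_X_left_apply f]
  refine MvPolynomial.eval₂Hom_congr' rfl ?_ rfl
  intro i hi _
  simp [hf hi]

/-- A nonzero sum of fractions, each in at most `c` variables, has a nonzero specialisation which keeps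
at most `c` variables, at every point where the denominators do not vanish. -/
theorem rsj {E : Type} [Field E] (c : ℕ) {ι : Type} [Fintype ι] [DecidableEq ι]
    (a b : ι → MvPolynomial ℕ E) (hc : ∀ t, ((a t).vars ∪ (b t).vars).card ≤ c)
    (hnum : numer a b ≠ 0) (ζ : ℕ → E) (hb : ∀ t, eval ζ (b t) ≠ 0) :
    ∃ J : Finset ℕ, J.card ≤ c ∧ Phi J ζ (numer a b) ≠ 0 := by
  classical
  by_contra hcon
  push Not at hcon
  obtain ⟨hn1, hn2, -⟩ := H47.nmt ι
  have hio : Function.Injective (io E) := io_injective
  have hbΦ : ∀ (J : Finset ℕ) t, Phi J ζ (b t) ≠ 0 := by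
    intro J t h
    have h1 := (phb E J ζ (b t)).1
    rw [h, map_zero] at h1
    exact hb t h1.symm
  have hval : ∀ J : Finset ℕ, ∑ t, io E (Phi J ζ (a t)) / io E (Phi J ζ (b t)) =
      io E (Phi J ζ (numer a b)) / io E (Phi J ζ (∏ t, b t)) := by
    intro J
    exact hn1 (MvPolynomial ℕ E) (FF E)
      ((io E).comp (Phi J ζ : MvPolynomial ℕ E →ₐ[E] MvPolynomial ℕ E).toRingHom) a b
      (fun t h => hbΦ J t (hio (by rw [map_zero]; exact h)))
  have hall := moebius c (fun t => (a t).vars ∪ (b t).vars) hc
    (fun t J => io E (Phi J ζ (a t)) / io E (Phi J ζ (b t)))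
    (by
      intro t J u hu
      rw [Finset.mem_union, not_or] at hu
      rw [phi_insert J ζ (a t) u hu.1, phi_insert J ζ (b t) u hu.2])
    (by
      intro J hJ
      change ∑ t, io E (Phi J ζ (a t)) / io E (Phi J ζ (b t)) = 0
      rw [hval J, hcon J hJ, map_zero, zero_div])
  have h1 := hall (numer a b).vars
  change ∑ t, io E (Phi _ ζ (a t)) / io E (Phi _ ζ (b t)) = 0 at h1
  rw [hval, phi_of_vars _ ζ _ (Finset.Subset.refl _)] at h1
  rcases div_eq_zero_iff.1 h1 with h2 | h2
  · exact hnum (hio (by rw [map_zero]; exact h2))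
  · have h3 : Phi (numer a b).vars ζ (∏ t, b t) = 0 := hio (by rw [map_zero]; exact h2)
    rw [map_prod] at h3
    obtain ⟨t, -, ht⟩ := Finset.prod_eq_zero_iff.1 h3
    exact hbΦ _ t ht

end Pool.Agent.RS.H82
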