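import Pool.Agent.Helper58_RS.CLU
import Pool.Agent.Helper82_RS.Anova
import Pool.Agent.Helper82_RS.FAI
import Pool.Agent.Helper15_RS.LDE
import Pool.Agent.Helper64_RS.DER
import Pool.Agent.Helper77_RS.GNT
import Pool.Agent.Helper25_RS.FRE
import Pool.Agent.Helper44_RS.PRD

/-!
# Compositions of clusters of polynomials in few variables (`MP_b2b50d_lc`)
-/

set_option autoImplicit false

namespace Pool.Agent.RS

open MvPolynomial

/-- `T = f_1 ... f_N (a_1 / b_1 + ... + a_M / b_M)` with arbitrary `N`, `M`; the `f_v`, `a_t`, `b_t ≠ 0`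
depend on at most `c` of the variables `x_0, ..., x_(n-1)` (the equation is multiplied by
`b_1 ... b_M`). -/
def IsJCluster (E : Type) [Field E] (c n : ℕ) (T : MvPolynomial ℕ E) : Prop :=
  ∃ (N M : ℕ) (f : Fin N → MvPolynomial ℕ E) (a b : Fin M → MvPolynomial ℕ E),
    (∀ v, (f v).vars.card ≤ c ∧ (f v).vars ⊆ Finset.range n) ∧
    (∀ t, (a t).vars.card ≤ c ∧ (a t).vars ⊆ Finset.range n ∧ (b t).vars.card ≤ c ∧
      (b t).vars ⊆ Finset.range n ∧ b t ≠ 0) ∧
    T * ∏ t, b t = (∏ v, f v) * ∑ t, a t * ∏ t' ∈ Finset.univ.erase t, b t'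

/-- `F = C(T_1, ..., T_m)` with an arbitrary polynomial `C` and clusters `T_i` of polynomials in at
most `c` variables, at most `k` of which are algebraically independent. -/
def IsJun (E : Type) [Field E] (k c n : ℕ) (F : MvPolynomial ℕ E) : Prop :=
  ∃ (m : ℕ) (T : Fin m → MvPolynomial ℕ E) (C : MvPolynomial (Fin m) E),
    (∀ i, IsJCluster E c n (T i)) ∧
    (∀ s : Finset (Fin m), AlgebraicIndependent E (fun i : s => T i) → s.card ≤ k) ∧
    F = aeval T C

end Pool.Agent.RS

namespace Pool.Agent.RS.H82J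

open MvPolynomial H58C

variable {E : Type} [Field E]

theorem pderiv_vars (j : ℕ) (f : MvPolynomial ℕ E) : (pderiv j f).vars ⊆ f.vars := by
  have h1 : pderiv j f ∈ supported E ((f.vars : Finset ℕ) : Set ℕ) := by
    have h2 : f ∈ supported E ((f.vars : Finset ℕ) : Set ℕ) := by
      rw [mem_supported]
    have key : ∀ g ∈ supported E ((f.vars : Finset ℕ) : Set ℕ),
        pderiv j g ∈ supported E ((f.vars : Finset ℕ) : Set ℕ) := by
      intro g hg
      rw [supported_eq_adjoin_X] at hg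
      induction hg using Algebra.adjoin_induction with
      | mem x hx =>
        obtain ⟨i, hi, rfl⟩ := hx
        rw [pderiv_X]
        by_cases hij : i = j
        · subst hij
          rw [Pi.single_eq_same]
          exact Subalgebra.one_mem _
        · rw [Pi.single_eq_of_ne hij]
          exact Subalgebra.zero_mem _
      | algebraMap r =>
        rw [MvPolynomial.algebraMap_eq, pderiv_C]
        exact Subalgebra.zero_mem _
      | add x y _ _ hx hy =>
        rw [map_add]
        exact Subalgebra.add_mem _ hx hy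
      | mul x y hx' hy' hx hy =>
        rw [← supported_eq_adjoin_X] at hx' hy'
        rw [Derivation.leibniz, smul_eq_mul, smul_eq_mul]
        exact Subalgebra.add_mem _ (Subalgebra.mul_mem _ hx' hy) (Subalgebra.mul_mem _ hy' hx)
    exact key f h2
  rw [mem_supported] at h1
  exact_mod_cast h1

section Entry

variable {N M : ℕ}

/-- the variables of the numerators and denominators of the logarithmic derivative -/
theorem ent_vars {c : ℕ} (f : Fin N → MvPolynomial ℕ E) (a b : Fin M → MvPolynomial ℕ E)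
    (hf : ∀ v, (f v).vars.card ≤ c) (ha : ∀ t, (a t).vars.card ≤ c)
    (hb : ∀ t, (b t).vars.card ≤ c) (u : Fin M ⊕ (Fin M × Fin N)) :
    ∃ V : Finset ℕ, V.card ≤ 3 * c ∧ (ede f b u).vars ⊆ V ∧ ∀ j, (enu f a b j u).vars ⊆ V := by
  classical
  rcases u with t | ⟨t, v⟩
  · refine ⟨(a t).vars ∪ (b t).vars, ?_, ?_, fun j => ?_⟩
    · refine (Finset.card_union_le _ _).trans ?_
      have := ha t
      have := hb t
      omega
    · exact (vars_mul _ _).trans (by
        rw [Finset.union_idempotent]; exact Finset.subset_union_right)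
    · show (pderiv j (a t) * b t - a t * pderiv j (b t)).vars ⊆ _
      refine (vars_sub_subset _).trans ?_
      refine Finset.union_subset ?_ ?_
      · exact (vars_mul _ _).trans (Finset.union_subset_union (pderiv_vars j _) le_rfl)
      · exact (vars_mul _ _).trans (Finset.union_subset_union le_rfl (pderiv_vars j _))
  · refine ⟨(a t).vars ∪ (b t).vars ∪ (f v).vars, ?_, ?_, fun j => ?_⟩
    · refine (Finset.card_union_le _ _).trans ?_
      have h1 := Finset.card_union_le (a t).vars (b t).vars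
      have := ha t
      have := hb t
      have := hf v
      omega
    · refine (vars_mul _ _).trans (Finset.union_subset_union ?_ le_rfl)
      exact Finset.subset_union_right
    · show (a t * pderiv j (f v)).vars ⊆ _
      refine (vars_mul _ _).trans (Finset.union_subset_union ?_ (pderiv_vars j _))
      exact Finset.subset_union_left

end Entry

/-- Specialisation of a composition of clusters of polynomials in few variables. -/
theorem spe [CharZero E] (k c n : ℕ) (F : MvPolynomial ℕ E) (hF : IsJun E k c n F) (hF0 : F ≠ 0) :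
    ∃ H : Finset (MvPolynomial ℕ E), (∀ h ∈ H, h ≠ 0 ∧ h.vars.card ≤ c) ∧
      ∀ ζ : ℕ → E, (∀ h ∈ H, eval ζ h ≠ 0) →
        ∃ J : Finset ℕ, J.card ≤ 3 * c * k + k ∧ Phi J ζ F ≠ 0 := by
  classical
  obtain ⟨m, T, C, hT, hk, hFC⟩ := hF
  choose N M f a b hf hab hTf using hT
  obtain ⟨ρ, s, j, hρ, hdet, hfaith⟩ := H82.fai E m k T hk
  -- the factors are not zero
  have hT0 : ∀ l, T (s l) ≠ 0 := by
    intro l h
    apply hdet
    apply Matrix.det_eq_zero_of_column_eq_zero l
    intro i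
    rw [Matrix.of_apply, h, map_zero]
  have hb0 : ∀ l t, b (s l) t ≠ 0 := fun l t => (hab (s l) t).2.2.2.2
  have hf0 : ∀ l v, f (s l) v ≠ 0 := by
    intro l v h
    have h1 : T (s l) * ∏ t, b (s l) t ≠ 0 :=
      mul_ne_zero (hT0 l) (Finset.prod_ne_zero_iff.2 fun t _ => hb0 l t)
    apply h1
    rw [hTf (s l), Finset.prod_eq_zero (Finset.mem_univ v) h, zero_mul]
  let U : Fin ρ → Type := fun l => Fin (M (s l)) ⊕ (Fin (M (s l)) × Fin (N (s l)))
  let nu : ∀ l : Fin ρ, Fin ρ → U l → MvPolynomial ℕ E :=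
    fun l i => enu (f (s l)) (a (s l)) (b (s l)) (j i)
  let de : ∀ l : Fin ρ, U l → MvPolynomial ℕ E := fun l => ede (f (s l)) (b (s l))
  obtain ⟨De, hDe⟩ : ∃ De, De = (Matrix.of fun i l => pderiv (j i) (T (s l))).det := ⟨_, rfl⟩
  obtain ⟨A, hA⟩ : ∃ A : KIdx U → MvPolynomial ℕ E, A = fun t : KIdx U =>
      ((Equiv.Perm.sign t.1 : ℤ) : MvPolynomial ℕ E) * ∏ l, nu l (t.1 l) (t.2 l) := ⟨_, rfl⟩
  obtain ⟨B, hB⟩ : ∃ B : KIdx U → MvPolynomial ℕ E, B = fun t : KIdx U =>
      ∏ l, de l (t.2 l) := ⟨_, rfl⟩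
  have hj1 : io E De = io E (∏ l, ∏ v, f (s l) v) * total A B := by
    rw [hDe, hA, hB]
    refine det_expand U _ (fun l => ∏ v, f (s l) v) nu de ?_
    intro i l
    rw [Matrix.of_apply]
    exact entry H15.lde H64.der H47.nmt (T (s l)) (f (s l)) (a (s l)) (b (s l)) (hf0 l) (hb0 l)
      (hTf (s l)) (j i)
  have hB0 : ∀ t, B t ≠ 0 := by
    intro t
    rw [hB]
    exact Finset.prod_ne_zero_iff.2 fun l _ => ede_ne _ _ (hf0 l) (hb0 l) _
  have hABv : ∀ t, ((A t).vars ∪ (B t).vars).card ≤ 3 * c * k := by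
    intro t
    have h1 : ∀ l : Fin ρ, ∃ V : Finset ℕ, V.card ≤ 3 * c ∧ (de l (t.2 l)).vars ⊆ V ∧
        ∀ i, (nu l i (t.2 l)).vars ⊆ V := by
      intro l
      obtain ⟨V, hV1, hV2, hV3⟩ := ent_vars (f (s l)) (a (s l)) (b (s l))
        (fun v => (hf (s l) v).1) (fun u => (hab (s l) u).1) (fun u => (hab (s l) u).2.2.1) (t.2 l)
      exact ⟨V, hV1, hV2, fun i => hV3 (j i)⟩
    choose V hV1 hV2 hV3 using h1
    have hsub : (A t).vars ∪ (B t).vars ⊆ Finset.univ.biUnion V := by
      refine Finset.union_subset ?_ ?_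
      · rw [hA]
        refine (vars_mul _ _).trans ?_
        have h2 : (((Equiv.Perm.sign t.1 : ℤ)) : MvPolynomial ℕ E).vars = ∅ := by
          rcases Int.units_eq_one_or (Equiv.Perm.sign t.1) with h | h
          · rw [h]
            simp
          · rw [h]
            have : ((((-1 : ℤˣ) : ℤ)) : MvPolynomial ℕ E) = MvPolynomial.C (-1) := by simp
            rw [this, vars_C]
        rw [h2, Finset.empty_union]
        refine (vars_prod _).trans ?_
        exact Finset.biUnion_mono fun l _ => hV3 l _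
      · rw [hB]
        refine (vars_prod _).trans ?_
        exact Finset.biUnion_mono fun l _ => hV2 l
    refine (Finset.card_le_card hsub).trans ?_
    refine Finset.card_biUnion_le.trans ?_
    refine (Finset.sum_le_card_nsmul _ _ (3 * c) fun l _ => hV1 l).trans ?_
    rw [Finset.card_univ, Fintype.card_fin, smul_eq_mul, mul_comm]
    exact Nat.mul_le_mul_left _ hρ
  obtain ⟨-, -, hn3⟩ := H47.nmt (KIdx U)
  obtain ⟨htot, hiff⟩ := hn3 E A B hB0
  rw [← hDe] at hdet
  have hio : Function.Injective (io E) := io_injective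
  have hioDe : io E De ≠ 0 := by
    intro h
    rw [← map_zero (io E)] at h
    exact hdet (hio h)
  have htot0 : total A B ≠ 0 := by
    intro h
    rw [h, mul_zero] at hj1
    exact hioDe hj1
  have hnum0 : numer A B ≠ 0 := hiff.1 htot0
  have hbprod : ∏ t, B t ≠ 0 := Finset.prod_ne_zero_iff.2 fun t _ => hB0 t
  have hiob : io E (∏ t, B t) ≠ 0 := by
    intro h
    rw [← map_zero (io E)] at h
    exact hbprod (hio h)
  -- the identity in the ring of polynomials
  have hid : De * ∏ t, B t = (∏ l, ∏ v, f (s l) v) * numer A B := by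
    apply hio
    rw [map_mul, map_mul, hj1, htot, mul_assoc, div_mul_cancel₀ _ hiob]
  refine ⟨(Finset.univ.biUnion fun l : Fin ρ => Finset.univ.image fun v : Fin (N (s l)) =>
      f (s l) v) ∪ (Finset.univ.biUnion fun l : Fin ρ => Finset.univ.image fun v : Fin (M (s l)) =>
      b (s l) v), ?_, ?_⟩
  · intro h hh
    rcases Finset.mem_union.1 hh with h1 | h1
    · obtain ⟨l, -, h2⟩ := Finset.mem_biUnion.1 h1
      obtain ⟨v, -, rfl⟩ := Finset.mem_image.1 h2
      exact ⟨hf0 l v, (hf (s l) v).1⟩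
    · obtain ⟨l, -, h2⟩ := Finset.mem_biUnion.1 h1
      obtain ⟨v, -, rfl⟩ := Finset.mem_image.1 h2
      exact ⟨hb0 l v, (hab (s l) v).2.2.1⟩
  · intro ζ hζ
    have hζf : ∀ l v, eval ζ (f (s l) v) ≠ 0 := fun l v => hζ _ (Finset.mem_union_left _
      (Finset.mem_biUnion.2 ⟨l, Finset.mem_univ l, Finset.mem_image_of_mem _ (Finset.mem_univ v)⟩))
    have hζb : ∀ l v, eval ζ (b (s l) v) ≠ 0 := fun l v => hζ _ (Finset.mem_union_right _
      (Finset.mem_biUnion.2 ⟨l, Finset.mem_univ l, Finset.mem_image_of_mem _ (Finset.mem_univ v)⟩))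
    have hζB : ∀ t, eval ζ (B t) ≠ 0 := by
      intro t
      rw [hB]
      show eval ζ (∏ l, de l (t.2 l)) ≠ 0
      rw [map_prod]
      refine Finset.prod_ne_zero_iff.2 fun l _ => ?_
      show eval ζ (ede (f (s l)) (b (s l)) (t.2 l)) ≠ 0
      rcases t.2 l with u | ⟨u, v⟩
      · show eval ζ (b (s l) u * b (s l) u) ≠ 0
        rw [map_mul]
        exact mul_ne_zero (hζb l u) (hζb l u)
      · show eval ζ (b (s l) u * f (s l) v) ≠ 0
        rw [map_mul]
        exact mul_ne_zero (hζb l u) (hζf l v)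
    obtain ⟨J₀, hJ₀, hζ₀⟩ := H82.rsj (3 * c * k) A B hABv hnum0 ζ hζB
    obtain ⟨J, hJ⟩ : ∃ J, J = J₀ ∪ Finset.univ.image j := ⟨_, rfl⟩
    refine ⟨J, ?_, ?_⟩
    · rw [hJ]
      refine (Finset.card_union_le _ _).trans ?_
      refine Nat.add_le_add hJ₀ ?_
      refine Finset.card_image_le.trans ?_
      rw [Finset.card_univ, Fintype.card_fin]
      exact hρ
    have hJ₀J : J₀ ⊆ J := by
      rw [hJ]
      exact Finset.subset_union_left
    have hjJ : ∀ i, j i ∈ J := by
      intro i
      rw [hJ]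
      exact Finset.mem_union_right _ (Finset.mem_image_of_mem _ (Finset.mem_univ i))
    have hnumΦ : Phi J ζ (numer A B) ≠ 0 := by
      intro h
      have h1 := (H82.phb E J₀ ζ (numer A B)).2.2.1 J hJ₀J
      rw [h, map_zero] at h1
      exact hζ₀ h1.symm
    have hfΦ : ∀ l v, Phi J ζ (f (s l) v) ≠ 0 := by
      intro l v h
      have h1 := (H82.phb E J ζ (f (s l) v)).1
      rw [h, map_zero] at h1
      exact hζf l v h1.symm
    have hDeΦ : Phi J ζ De ≠ 0 := by
      intro h
      have h1 := congrArg (Phi J ζ) hid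
      rw [map_mul, h, zero_mul, map_mul] at h1
      have h2 : Phi J ζ (∏ l, ∏ v, f (s l) v) ≠ 0 := by
        rw [map_prod]
        refine Finset.prod_ne_zero_iff.2 fun l _ => ?_
        rw [map_prod]
        exact Finset.prod_ne_zero_iff.2 fun v _ => hfΦ l v
      exact mul_ne_zero h2 hnumΦ h1.symm
    rw [hFC]
    apply hfaith (Phi J ζ) C
    · have h1 : (Matrix.of fun i l => pderiv (j i) (Phi J ζ (T (s l)))).det = Phi J ζ De := by
        rw [hDe, AlgHom.map_det]
        congr 1
        ext i l : 2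
        rw [Matrix.of_apply, (H82.phb E J ζ (T (s l))).2.2.2 (j i) (hjJ i)]
        rfl
      rw [h1]
      exact hDeΦ
    · rw [← hFC]
      exact hF0

/-- The polynomials of the class are polynomials in the first `n` variables. -/
theorem jcl_vars {c n : ℕ} {T : MvPolynomial ℕ E} (h : IsJCluster E c n T) :
    T.vars ⊆ Finset.range n := by
  classical
  obtain ⟨N, M, f, a, b, hf, hab, hT⟩ := h
  by_cases hT0 : T = 0
  · rw [hT0]
    simp
  intro i hi
  rw [Finset.mem_range]
  by_contra hin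
  have hb : ∏ t, b t ≠ 0 := Finset.prod_ne_zero_iff.2 fun t _ => (hab t).2.2.2.2
  have hs : ∀ p : MvPolynomial ℕ E, p.vars ⊆ Finset.range n → p ∈ supported E {i : ℕ | i < n} := by
    intro p hp
    rw [mem_supported]
    intro j hj
    exact Finset.mem_range.1 (hp hj)
  have h1 : (∏ v, f v) * ∑ t, a t * ∏ t' ∈ Finset.univ.erase t, b t' ∈
      supported E {i : ℕ | i < n} := by
    refine Subalgebra.mul_mem _ (Subalgebra.prod_mem _ fun v _ => hs _ (hf v).2) ?_
    refine Subalgebra.sum_mem _ fun t _ => Subalgebra.mul_mem _ (hs _ (hab t).2.1) ?_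
    exact Subalgebra.prod_mem _ fun t' _ => hs _ (hab t').2.2.2.1
  rw [← hT, mem_supported] at h1
  have h2 : i ∈ (T * ∏ t, b t).vars := by
    rw [mem_vars_iff_degreeOf_ne_zero] at hi ⊢
    rw [degreeOf_mul_eq hT0 hb]
    omega
  exact hin (h1 h2)

theorem jun_vars {k c n : ℕ} {F : MvPolynomial ℕ E}
    (hF : IsJun E k c n F) : ∀ i ∈ F.vars, i < n := by
  obtain ⟨m, T, C, hT, -, rfl⟩ := hF
  have h1 : ∀ i, T i ∈ supported E {i : ℕ | i < n} := by
    intro i
    rw [mem_supported]
    intro j hj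
    exact Finset.mem_range.1 (jcl_vars (hT i) hj)
  have h2 : aeval T C ∈ Algebra.adjoin E (Set.range T) := by
    rw [Algebra.adjoin_range_eq_range_aeval]
    exact ⟨C, rfl⟩
  have h3 : aeval T C ∈ supported E {i : ℕ | i < n} := by
    refine Algebra.adjoin_le ?_ h2
    rintro _ ⟨i, rfl⟩
    exact h1 i
  rw [mem_supported] at h3
  intro i hi
  exact h3 hi

/-- The generator for nonzero polynomials in at most `c` variables. -/
theorem gen [CharZero E] (n c : ℕ) (H : Finset (MvPolynomial ℕ E))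
    (hH : ∀ h ∈ H, h ≠ 0 ∧ h.vars.card ≤ c) : ∃ (w z : Fin c → E) (u : ℕ → E), ∀ h ∈ H,
      eval (fun i => if i < n then Pool.Agent.UO.point n w z i else u i) h ≠ 0 := by
  classical
  -- one polynomial
  have one : ∀ h : MvPolynomial ℕ E, h ≠ 0 → h.vars.card ≤ c →
      ∃ (w z : Fin c → E) (u : ℕ → E),
        eval (fun i => if i < n then Pool.Agent.UO.point n w z i else u i) h ≠ 0 := by
    intro h h0 hd
    obtain ⟨p, hp⟩ := H77.ex_ne h h0
    obtain ⟨w, z, hwz⟩ := H25.fre E n 0 c (h.vars.filter (· < n)) Fin.elim0 Fin.elim0 p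
      (fun j hj => (Finset.mem_filter.1 hj).2)
      (by rw [zero_add]; exact (Finset.card_filter_le _ _).trans hd)
    refine ⟨w, z, p, ?_⟩
    have h1 : eval (fun i => if i < n then Pool.Agent.UO.point n w z i else p i) h = eval p h := by
      refine MvPolynomial.eval₂Hom_congr' rfl (fun i hi _ => ?_) rfl
      by_cases hin : i < n
      · rw [if_pos hin, hwz i, if_pos (Finset.mem_filter.2 ⟨hi, hin⟩)]
      · rw [if_neg hin]
    rw [h1]
    exact hp
  -- all of them
  set pts : ℕ → MvPolynomial (Fin c ⊕ (Fin c ⊕ ℕ)) E := fun i =>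
    if i < n then Pool.Agent.UO.point n (fun l => X (Sum.inl l)) (fun l => X (Sum.inr (Sum.inl l))) i
    else X (Sum.inr (Sum.inr i)) with hpts
  have e3 : ∀ (v : Fin c ⊕ (Fin c ⊕ ℕ) → E) (i : ℕ), eval v (pts i) =
      if i < n then Pool.Agent.UO.point n (fun l => v (Sum.inl l)) (fun l => v (Sum.inr (Sum.inl l))) i
      else v (Sum.inr (Sum.inr i)) := by
    intro v i
    rw [hpts]
    show eval v (if i < n then Pool.Agent.UO.point n (fun l => X (Sum.inl l))
      (fun l => X (Sum.inr (Sum.inl l))) i else X (Sum.inr (Sum.inr i))) = _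
    split_ifs with hi
    · unfold Pool.Agent.UO.point
      rw [if_pos hi, if_pos hi]
      simp only [map_sum, map_mul, map_prod, map_sub, map_natCast, eval_X]
    · rw [eval_X]
  have h4 : ∀ h ∈ H, aeval pts h ≠ 0 := by
    intro h hh h0
    obtain ⟨w, z, u, hw⟩ := one h (hH h hh).1 (hH h hh).2
    apply hw
    have e4 := congrArg (eval (Sum.elim w (Sum.elim z u))) h0
    rw [H77.eval_aeval, map_zero] at e4
    simp only [e3, Sum.elim_inl, Sum.elim_inr] at e4
    exact e4
  have h5 : ∏ h ∈ H, aeval pts h ≠ 0 := Finset.prod_ne_zero_iff.2 h4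
  obtain ⟨v, hv⟩ := H77.ex_ne _ h5
  rw [map_prod] at hv
  refine ⟨fun l => v (Sum.inl l), fun l => v (Sum.inr (Sum.inl l)), fun i => v (Sum.inr (Sum.inr i)),
    fun h hh => ?_⟩
  have h6 := Finset.prod_ne_zero_iff.1 hv h hh
  rw [H77.eval_aeval] at h6
  simp only [e3] at h6
  exact h6

/-- **The hitting set** for one nonzero polynomial of the class. -/
theorem hit [CharZero E] (k c n t : ℕ) (ht : c + (3 * c * k + k) ≤ t) (F : MvPolynomial ℕ E)
    (hF : IsJun E k c n F) (hF0 : F ≠ 0) :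
      ∃ w z : Fin t → E, eval (Pool.Agent.UO.point n w z) F ≠ 0 := by
  classical
  obtain ⟨H, hH, hPhi⟩ := spe k c n F hF hF0
  obtain ⟨w, z, u, hwz⟩ := gen n c H hH
  obtain ⟨J, hJ, hG⟩ := hPhi (fun i => if i < n then Pool.Agent.UO.point n w z i else u i) hwz
  obtain ⟨y, hy⟩ := H77.ex_ne _ hG
  obtain ⟨w', z', hp⟩ := H25.fre E n c t (J.filter (· < n)) w z y
    (fun j hj => (Finset.mem_filter.1 hj).2)
    (le_trans (Nat.add_le_add_left ((Finset.card_filter_le _ _).trans hJ) _) ht)
  refine ⟨w', z', ?_⟩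
  have h1 : eval (Pool.Agent.UO.point n w' z') F = eval y (Phi J
      (fun i => if i < n then Pool.Agent.UO.point n w z i else u i) F) := by
    unfold Phi
    rw [H77.eval_aeval]
    refine MvPolynomial.eval₂Hom_congr' rfl (fun i hi _ => ?_) rfl
    have hin : i < n := jun_vars hF i hi
    rw [hp i]
    by_cases hiJ : i ∈ J
    · simp [hiJ, hin]
    · simp [hiJ, hin]
  rw [h1]
  exact hy

/-- **Products** of polynomials of a class which is hit by the generator. -/
theorem prd [CharZero E] (n t : ℕ) (P : MvPolynomial ℕ E → Prop)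
    (hP : ∀ F, P F → F ≠ 0 → ∃ w z : Fin t → E, eval (Pool.Agent.UO.point n w z) F ≠ 0)
    (S : List (MvPolynomial ℕ E)) (hS : ∀ F ∈ S, P F) (hne : S.prod ≠ 0) :
    ∃ w z : Fin t → E, eval (Pool.Agent.UO.point n w z) S.prod ≠ 0 := by
  -- the universal point
  let pt : ℕ → MvPolynomial (Fin t ⊕ Fin t) E :=
    Pool.Agent.UO.point n (fun j => X (Sum.inl j)) (fun j => X (Sum.inr j))
  have hev : ∀ (y : Fin t ⊕ Fin t → E) (F : MvPolynomial ℕ E), eval y (aeval pt F) =
      eval (Pool.Agent.UO.point n (fun j => y (Sum.inl j)) (fun j => y (Sum.inr j))) F := by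
    intro y F
    rw [H77.eval_aeval]
    congr 2
    funext i
    show eval y (Pool.Agent.UO.point n _ _ i) = _
    rw [H44.map_pt (eval y)]
    simp only [eval_X]
  have hprod : ∀ S : List (MvPolynomial ℕ E), (∀ F ∈ S, P F) → S.prod ≠ 0 →
      aeval pt S.prod ≠ 0 := by
    intro S
    induction S with
    | nil =>
      intro _ _
      rw [List.prod_nil, map_one]
      exact one_ne_zero
    | cons F S ih =>
      intro hc hn
      rw [List.prod_cons] at hn
      rw [List.prod_cons, map_mul]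
      apply mul_ne_zero
      · obtain ⟨w, z, hwz⟩ := hP F (hc F (List.mem_cons_self)) (left_ne_zero_of_mul hn)
        intro hz
        apply hwz
        have h1 := hev (Sum.elim w z) F
        rw [hz, map_zero] at h1
        exact h1.symm
      · exact ih (fun G hG => hc G (List.mem_cons_of_mem _ hG)) (right_ne_zero_of_mul hn)
  obtain ⟨y, hy⟩ := H77.ex_ne _ (hprod S hS hne)
  rw [hev y] at hy
  exact ⟨_, _, hy⟩

/-! ### Examples -/

/-- Products which differ in few factors from one product form a cluster. -/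
theorem jcl_near (c c' r n N M : ℕ) (hd : c' ≤ c) (hr : r * c' ≤ c)
    (f : Fin N → MvPolynomial ℕ E)
    (V : Fin M → Finset (Fin N)) (a : Fin M → MvPolynomial ℕ E)
    (hf : ∀ v, (f v).vars.card ≤ c' ∧ (f v).vars ⊆ Finset.range n)
    (hV : ∀ u, (V u).card ≤ r)
    (ha : ∀ u, (a u).vars.card ≤ c ∧ (a u).vars ⊆ Finset.range n) :
    IsJCluster E c n (∑ u, a u * ∏ v ∈ (V u)ᶜ, f v) := by
  classical
  let f' : Fin N → MvPolynomial ℕ E := fun v => if f v = 0 then 1 else f v
  let a' : Fin M → MvPolynomial ℕ E := fun u => if ∃ v ∈ (V u)ᶜ, f v = 0 then 0 else a u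
  have hf0 : ∀ v, f' v ≠ 0 := by
    intro v
    simp only [f']
    split_ifs with h
    · exact one_ne_zero
    · exact h
  have hf' : ∀ v, (f' v).vars.card ≤ c' ∧ (f' v).vars ⊆ Finset.range n := by
    intro v
    simp only [f']
    split_ifs with h
    · simp
    · exact hf v
  have ha' : ∀ u, (a' u).vars.card ≤ c ∧ (a' u).vars ⊆ Finset.range n := by
    intro u
    simp only [a']
    split_ifs with h
    · simp
    · exact ha u
  have hterm : ∀ u, a u * ∏ v ∈ (V u)ᶜ, f v = a' u * ∏ v ∈ (V u)ᶜ, f' v := by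
    intro u
    simp only [a']
    split_ifs with h
    · obtain ⟨v, hv, h0⟩ := h
      rw [Finset.prod_eq_zero hv h0, mul_zero, zero_mul]
    · congr 1
      refine Finset.prod_congr rfl fun v hv => ?_
      simp only [f']
      rw [if_neg]
      exact fun h0 => h ⟨v, hv, h0⟩
  refine ⟨N, M, f', a', fun u => ∏ v ∈ V u, f' v, ?_, ?_, ?_⟩
  · intro v
    exact ⟨(hf' v).1.trans hd, (hf' v).2⟩
  · intro u
    refine ⟨(ha' u).1, (ha' u).2, ?_, ?_, Finset.prod_ne_zero_iff.mpr fun v _ => hf0 v⟩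
    · refine (Finset.card_le_card (vars_prod _)).trans ?_
      refine Finset.card_biUnion_le.trans ?_
      refine (Finset.sum_le_sum fun v _ => (hf' v).1).trans ?_
      rw [Finset.sum_const, smul_eq_mul]
      exact (Nat.mul_le_mul_right c' (hV u)).trans hr
    · exact (vars_prod _).trans (Finset.biUnion_subset.2 fun v _ => (hf' v).2)
  · rw [Finset.sum_mul, Finset.mul_sum]
    refine Finset.sum_congr rfl fun u _ => ?_
    rw [hterm u]
    have h1 : ∏ v, f' v = (∏ v ∈ V u, f' v) * ∏ v ∈ (V u)ᶜ, f' v :=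
      (Finset.prod_mul_prod_compl _ _).symm
    have h2 : ∏ t, ∏ v ∈ V t, f' v =
        (∏ v ∈ V u, f' v) * ∏ t' ∈ Finset.univ.erase u, ∏ v ∈ V t', f' v :=
      (Finset.mul_prod_erase _ _ (Finset.mem_univ u)).symm
    rw [h1, h2]
    ring

/-- A product is a cluster. -/
theorem jcl_prod (c n N : ℕ) (f : Fin N → MvPolynomial ℕ E)
    (hf : ∀ v, (f v).vars.card ≤ c ∧ (f v).vars ⊆ Finset.range n) :
    IsJCluster E c n (∏ v, f v) := by
  refine ⟨N, 1, f, fun _ => 1, fun _ => 1, hf, ?_, ?_⟩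
  · intro t
    simp
  · simp

/-- Sums of `k` products. -/
theorem jun_sum (k c n : ℕ) (e : Fin k → E) (N : Fin k → ℕ)
    (f : ∀ i : Fin k, Fin (N i) → MvPolynomial ℕ E)
    (hf : ∀ i v, (f i v).vars.card ≤ c ∧ (f i v).vars ⊆ Finset.range n) :
    IsJun E k c n (∑ i, C (e i) * ∏ v, f i v) := by
  refine ⟨k, fun i => ∏ v, f i v, ∑ i, C (e i) * X i, fun i => jcl_prod c n (N i) (f i) (hf i),
    fun s _ => ?_, ?_⟩
  · exact (Finset.card_le_univ s).trans (by simp)
  · rw [map_sum]
    refine Finset.sum_congr rfl fun i _ => ?_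
    rw [map_mul, aeval_X, aeval_C]
    rfl

/-- Sums of `k` clusters of products. -/
theorem jun_near (k c c' r n : ℕ) (hd : c' ≤ c) (hr : r * c' ≤ c)
    (N M : Fin k → ℕ)
    (f : ∀ i : Fin k, Fin (N i) → MvPolynomial ℕ E)
    (V : ∀ i : Fin k, Fin (M i) → Finset (Fin (N i)))
    (a : ∀ i : Fin k, Fin (M i) → MvPolynomial ℕ E)
    (hf : ∀ i v, (f i v).vars.card ≤ c' ∧ (f i v).vars ⊆ Finset.range n)
    (hV : ∀ i u, (V i u).card ≤ r)
    (ha : ∀ i u, (a i u).vars.card ≤ c ∧ (a i u).vars ⊆ Finset.range n) :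
    IsJun E k c n (∑ i, ∑ u, a i u * ∏ v ∈ (V i u)ᶜ, f i v) := by
  refine ⟨k, fun i => ∑ u, a i u * ∏ v ∈ (V i u)ᶜ, f i v, ∑ i, X i,
    fun i => jcl_near c c' r n (N i) (M i) hd hr (f i) (V i) (a i) (hf i) (hV i) (ha i),
    fun s _ => ?_, ?_⟩
  · exact (Finset.card_le_univ s).trans (by simp)
  · rw [map_sum]
    refine Finset.sum_congr rfl fun i _ => ?_
    rw [aeval_X]

end Pool.Agent.RS.H82J
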