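import Pool.Agent.Helper82_RS.Minor

/-!
# Squad RS (`MP_b2b50d_lc`): the Jacobian criterion in characteristic zero
-/

set_option autoImplicit false

open scoped KaehlerDifferential

namespace Pool.Agent.RS.H82

open MvPolynomial

section easy

variable {E I : Type} [Field E]

/-- The chain rule. -/
theorem derivation_aeval {A M J : Type} [CommRing A] [Algebra E A] [AddCommGroup M] [Module A M]
    [Module E M] [IsScalarTower E A M] [Fintype J] (D : Derivation E A M) (T : J → A)
    (P : MvPolynomial J E) : D (aeval T P) = ∑ l, aeval T (pderiv l P) • D (T l) := by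
  classical
  induction P using MvPolynomial.induction_on with
  | C a => simp
  | add p q hp hq =>
    rw [map_add, map_add, hp, hq, ← Finset.sum_add_distrib]
    refine Finset.sum_congr rfl fun l _ => ?_
    rw [map_add, map_add, add_smul]
  | mul_X p n hp =>
    rw [map_mul, aeval_X, Derivation.leibniz, hp, Finset.smul_sum]
    have h1 : ∀ l, aeval T (pderiv l (p * X n)) • D (T l) =
        T n • aeval T (pderiv l p) • D (T l) + if l = n then aeval T p • D (T l) else 0 := by
      intro l
      rw [Derivation.leibniz, pderiv_X, map_add, add_smul, smul_eq_mul, smul_eq_mul, map_mul,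
        map_mul, aeval_X, add_comm]
      congr 1
      · rw [mul_smul]
      · by_cases hl : l = n
        · rw [hl]
          simp
        · rw [if_neg hl]
          have h2 : (Pi.single l (1 : MvPolynomial J E) : J → MvPolynomial J E) n = 0 := by
            rw [Pi.single_apply, if_neg (fun h => hl h.symm)]
          rw [h2]
          simp
    rw [Finset.sum_congr rfl fun l _ => h1 l, Finset.sum_add_distrib, Finset.sum_ite_eq',
      if_pos (Finset.mem_univ n), add_comm]

variable [CharZero E]

/-- A polynomial over a field of characteristic zero all of whose derivatives vanish is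
constant. -/
theorem eq_C_of_pderiv {J : Type} (P : MvPolynomial J E) (h : ∀ l, pderiv l P = 0) :
    P = C (P.coeff 0) := by
  classical
  ext m
  rw [coeff_C]
  split_ifs with hm
  · rw [hm]
  · by_contra hne
    have hm' : ∃ l, m l ≠ 0 := by
      by_contra hcon
      push Not at hcon
      apply hm
      ext l
      simp [hcon l]
    obtain ⟨l, hl⟩ := hm'
    have h1 := congrArg (coeff (m - Finsupp.single l 1)) (h l)
    have e2 : (m - Finsupp.single l 1) + Finsupp.single l 1 = m := by
      rw [tsub_add_cancel_of_le]
      rw [Finsupp.single_le_iff]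
      omega
    rw [coeff_zero, coeff_pderiv, e2] at h1
    rcases mul_eq_zero.1 h1 with h3 | h3
    · exact hne h3
    · exact (Nat.cast_add_one_ne_zero _) h3

omit [CharZero E] in
theorem totalDegree_pderiv_lt {J : Type} (P : MvPolynomial J E) (l : J) (h : pderiv l P ≠ 0) :
    (pderiv l P).totalDegree < P.totalDegree := by
  have h1 : ∀ m ∈ (pderiv l P).support, m.degree + 1 ≤ P.totalDegree := by
    intro m hm
    rw [mem_support_iff, coeff_pderiv] at hm
    have h2 : (m + Finsupp.single l 1) ∈ P.support :=
      mem_support_iff.2 (left_ne_zero_of_mul hm)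
    have h3 := le_totalDegree h2
    have h4 : (m + Finsupp.single l 1).degree = m.degree + 1 := by
      rw [map_add, Finsupp.degree_single]
    have h5 : ((m + Finsupp.single l 1).sum fun _ e => e) = (m + Finsupp.single l 1).degree := rfl
    rw [h5, h4] at h3
    exact h3
  obtain ⟨m0, hm0⟩ : (pderiv l P).support.Nonempty := by
    rw [Finset.nonempty_iff_ne_empty]
    simpa using h
  have h6 := h1 m0 hm0
  have h7 : (pderiv l P).totalDegree ≤ P.totalDegree - 1 := by
    refine Finset.sup_le ?_
    intro m hm
    have := h1 m hm
    have h5 : (m.sum fun _ e => e) = m.degree := rfl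
    omega
  omega

/-- JAC1.  A nonzero minor of the Jacobian matrix implies algebraic independence. -/
theorem algebraicIndependent_of_minor {r : ℕ} (T : Fin r → MvPolynomial I E) (j : Fin r → I)
    (h : (Matrix.of fun l i => pderiv (j i) (T l)).det ≠ 0) : AlgebraicIndependent E T := by
  classical
  rw [algebraicIndependent_iff]
  by_contra hcon
  push Not at hcon
  obtain ⟨P0, hP0, hP0'⟩ := hcon
  -- a relation of minimal degree
  obtain ⟨P, ⟨hP, hP'⟩, hmin⟩ := WellFounded.has_min
    (InvImage.wf (fun P : MvPolynomial (Fin r) E => P.totalDegree) Nat.lt_wfRel.wf)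
    {P | aeval T P = 0 ∧ P ≠ 0} ⟨P0, hP0, hP0'⟩
  have hder : ∀ i : Fin r, ∑ l, aeval T (pderiv l P) * pderiv (j i) (T l) = 0 := by
    intro i
    have h1 := derivation_aeval (pderiv (j i) : Derivation E (MvPolynomial I E) (MvPolynomial I E))
      T P
    rw [hP, map_zero] at h1
    exact h1.symm
  have hvec : (fun l => aeval T (pderiv l P)) = 0 := by
    apply Matrix.eq_zero_of_vecMul_eq_zero h
    funext i
    exact hder i
  have hzero : ∀ l, pderiv l P = 0 := by
    intro l
    by_contra hne
    exact hmin _ ⟨congrFun hvec l, hne⟩ (totalDegree_pderiv_lt P l hne)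
  have hC := eq_C_of_pderiv P hzero
  rw [hC] at hP hP'
  rw [aeval_C, MvPolynomial.algebraMap_eq] at hP
  exact hP' (by rw [(C_eq_zero.1 hP), C_0])

end easy

end Pool.Agent.RS.H82
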