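import Pool.Agent.Helper82_RS.Jac

/-!
# Squad RS (`MP_b2b50d_lc`): the Jacobian criterion in characteristic zero, second part
-/

set_option autoImplicit false

open scoped KaehlerDifferential TensorProduct

namespace Pool.Agent.RS.H82

open MvPolynomial

section ext

variable {E K : Type} [Field E] [CharZero E] [Field K] [Algebra E K]

open scoped IntermediateField.algebraAdjoinAdjoin in
open Classical in
/-- A derivation of the algebra generated by a transcendence basis extends to the field. -/
theorem exists_derivation (t : Set K) (ht : IsTranscendenceBasis E ((↑) : t → K)) (b0 : t) :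
    ∃ δ : Derivation E K K, ∀ b : t, δ b = if b = b0 then 1 else 0 := by
  let v : t → K := Subtype.val
  have hCK : CharZero K := charZero_of_injective_algebraMap (algebraMap E K).injective
  let S := Algebra.adjoin E (Set.range v)
  let L := IntermediateField.adjoin E (Set.range v)
  let e : MvPolynomial t E ≃ₐ[E] S := ht.1.aevalEquiv
  have hL : Algebra.IsAlgebraic L K := ht.isAlgebraic_field
  have hL0 : CharZero L := charZero_of_injective_algebraMap (algebraMap E L).injective
  have hsep : Algebra.IsSeparable L K := inferInstance
  have h1 : Algebra.FormallyEtale L K := Algebra.FormallyEtale.of_isSeparable _ _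
  have h2 : Algebra.FormallyEtale S L := Algebra.FormallyEtale.of_isLocalization (nonZeroDivisors S)
  have h3 : Algebra.FormallyEtale S K := Algebra.FormallyEtale.comp S L K
  let d : Derivation E S K := Derivation.mk'
    ((Algebra.linearMap S K).restrictScalars E ∘ₗ e.toLinearMap ∘ₗ
      (pderiv b0 : Derivation E (MvPolynomial t E) (MvPolynomial t E)).toLinearMap ∘ₗ
      e.symm.toLinearMap) (by
      intro x y
      have h4 : e (pderiv b0 (e.symm (x * y))) =
          x * e (pderiv b0 (e.symm y)) + y * e (pderiv b0 (e.symm x)) := by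
        rw [map_mul, Derivation.leibniz, smul_eq_mul, smul_eq_mul, map_add, map_mul, map_mul,
          AlgEquiv.apply_symm_apply, AlgEquiv.apply_symm_apply]
      change algebraMap S K (e (pderiv b0 (e.symm (x * y)))) =
        x • algebraMap S K (e (pderiv b0 (e.symm y))) +
          y • algebraMap S K (e (pderiv b0 (e.symm x)))
      rw [h4, map_add, map_mul, map_mul, Algebra.smul_def, Algebra.smul_def])
  have hd : ∀ b : t, d ⟨v b, Algebra.subset_adjoin ⟨b, rfl⟩⟩ = if b = b0 then 1 else 0 := by
    intro b
    have h5 : e.symm ⟨v b, Algebra.subset_adjoin ⟨b, rfl⟩⟩ = X b := by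
      rw [AlgEquiv.symm_apply_eq]
      apply Subtype.ext
      exact (AlgebraicIndependent.aevalEquiv_apply_coe ht.1 (X b)).trans (aeval_X _ _) |>.symm
    change algebraMap S K (e (pderiv b0 (e.symm _))) = _
    rw [h5, pderiv_X]
    by_cases hb : b = b0
    · rw [hb, Pi.single_eq_same, if_pos rfl, map_one, map_one]
    · rw [if_neg hb, Pi.single_eq_of_ne hb, map_zero, map_zero]
  let f : Ω[K⁄E] →ₗ[K] K := (LinearMap.liftBaseChange K d.liftKaehlerDifferential) ∘ₗ
    (KaehlerDifferential.tensorKaehlerEquivOfFormallyEtale E S K).symm.toLinearMap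
  refine ⟨f.compDer (KaehlerDifferential.D E K), fun b => ?_⟩
  have h6 := KaehlerDifferential.tensorKaehlerEquivOfFormallyEtale_symm_D_algebraMap E S K
    ⟨v b, Algebra.subset_adjoin ⟨b, rfl⟩⟩
  change LinearMap.liftBaseChange K d.liftKaehlerDifferential
    ((KaehlerDifferential.tensorKaehlerEquivOfFormallyEtale E S K).symm
      (KaehlerDifferential.D E K (algebraMap S K ⟨v b, Algebra.subset_adjoin ⟨b, rfl⟩⟩))) = _
  rw [h6, LinearMap.liftBaseChange_tmul, one_smul, Derivation.liftKaehlerDifferential_comp_D, hd]

end ext

section hard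

variable {E I : Type} [Field E] [CharZero E]

/-- The gradients of algebraically independent polynomials are linearly independent. -/
theorem gradients {r : ℕ} (T : Fin r → MvPolynomial I E) (hT : AlgebraicIndependent E T)
    (c : Fin r → MvPolynomial I E) (hc : ∀ i, ∑ l, c l * pderiv i (T l) = 0) : c = 0 := by
  classical
  let K := FractionRing (MvPolynomial I E)
  have hinj : Function.Injective (algebraMap (MvPolynomial I E) K) :=
    IsFractionRing.injective _ _
  let g : MvPolynomial I E →ₐ[E] K := IsScalarTower.toAlgHom E _ _
  have hg : AlgebraicIndependent E (fun l => g (T l)) :=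
    hT.map' (f := g) hinj
  have hginj : Function.Injective (fun l => g (T l)) := hg.injective
  obtain ⟨t, hst, ht⟩ := exists_isTranscendenceBasis_superset
    (R := E) (A := K) (s := Set.range fun l => g (T l)) (AlgebraicIndependent.to_subtype_range hg)
  funext l0
  have hmem : ∀ l, g (T l) ∈ t := fun l => hst ⟨l, rfl⟩
  obtain ⟨δ, hδ⟩ := exists_derivation t ht ⟨g (T l0), hmem l0⟩
  let δ' : Derivation E (MvPolynomial I E) K := δ.compAlgebraMap (MvPolynomial I E)
  have h1 : ∑ l, c l • KaehlerDifferential.D E (MvPolynomial I E) (T l) = 0 := by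
    apply (KaehlerDifferential.mvPolynomialBasis E I).repr.injective
    rw [map_sum, map_zero]
    ext i : 1
    rw [Finsupp.finsetSum_apply, Finsupp.zero_apply, ← hc i]
    refine Finset.sum_congr rfl fun l _ => ?_
    rw [map_smul, Finsupp.smul_apply, KaehlerDifferential.mvPolynomialBasis_repr_apply,
      smul_eq_mul]
  have h2 := congrArg δ'.liftKaehlerDifferential h1
  rw [map_sum, map_zero] at h2
  have h3 : ∀ l, δ'.liftKaehlerDifferential
      (c l • KaehlerDifferential.D E (MvPolynomial I E) (T l)) =
      if l = l0 then algebraMap _ K (c l) else 0 := by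
    intro l
    rw [map_smul, Derivation.liftKaehlerDifferential_comp_D]
    change c l • δ (g (T l)) = _
    have h4 := hδ ⟨g (T l), hmem l⟩
    change δ (g (T l)) = _ at h4
    rw [h4]
    by_cases hl : l = l0
    · rw [hl, if_pos rfl, if_pos rfl, Algebra.smul_def, mul_one]
    · rw [if_neg hl, if_neg, smul_zero]
      intro h5
      exact hl (hginj (congrArg Subtype.val h5))
  rw [Finset.sum_congr rfl fun l _ => h3 l, Finset.sum_ite_eq', if_pos (Finset.mem_univ l0)] at h2
  exact hinj (by rw [h2, Pi.zero_apply, map_zero])

/-- JAC2.  Algebraically independent polynomials have a nonzero minor of the Jacobian matrix. -/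
theorem exists_jacobian_minor {r : ℕ} (T : Fin r → MvPolynomial I E)
    (hT : AlgebraicIndependent E T) :
    ∃ j : Fin r → I, (Matrix.of fun l i => pderiv (j i) (T l)).det ≠ 0 :=
  exists_minor' (fun l i => pderiv i (T l)) (gradients T hT)

end hard

end Pool.Agent.RS.H82
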